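import Pool.Agent.Helper44.GJ.Stmts
import Pool.Agent.Helper44.GF.MAIN

/-! Module FP: the face inequality in terms of `MM`. -/

open Finset MeasureTheory Filter Topology Matrix
open scoped ENNReal ContDiff

namespace Pool.Agent.Helper44.GJ

open Pool.Agent.Helper44.GF Pool.Agent.Helper44.GN Pool.Agent.Helper44.GH

theorem fp_MM {n m : ℕ} {p : ℝ} (V : Matrix (Fin n) (Fin m) ℝ) :
    MM (fun u => u ^ (p / 2)) V = Mp p V := by
  unfold MM Mp ee Ph
  congr 1
  funext t
  congr 2
  refine Finset.sum_congr rfl fun i _ => ?_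
  show (V.mulVec t i ^ 2) ^ (p / 2) = |V.mulVec t i| ^ p
  rw [← sq_abs, ← Real.rpow_natCast, ← Real.rpow_mul (abs_nonneg _)]
  congr 1
  push_cast
  ring

theorem st_FP (hK : ST_KE) (hC : Pool.Agent.Helper44.GH.ST_CVB) (hI : ST_IN0) : ST_FP := by
  intro m n p hp1 hp2 K F θ hθ hcyc i
  obtain ⟨B, hB1, hB2⟩ := hK n (m + 1) p (F i).mat hp1 hp2 (main_injective (F i))
  have h1 := hC m n K F θ hθ hcyc B i hB1
  have hpos : ∀ j, 0 < Mp p (F j).mat := fun j =>
    (hI n (m + 1) p (F j).mat (by linarith) (main_injective (F j))).1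
  simp only [fp_MM]
  have hi := hpos i
  calc (volume (F i).dom).toReal / Mp p (F i).mat
      ≤ (∑ j ∈ univ.erase i, |(B * (F j).mat).det| * (volume (F j).dom).toReal)
        / Mp p (F i).mat := div_le_div_of_nonneg_right h1 hi.le
    _ = ∑ j ∈ univ.erase i, |(B * (F j).mat).det| * (volume (F j).dom).toReal
        / Mp p (F i).mat := by rw [Finset.sum_div]
    _ ≤ _ := by
      refine Finset.sum_le_sum fun j _ => ?_
      have hj := hpos j
      rw [div_le_div_iff₀ hi hj]
      have h2 := hB2 (F j).mat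
      have h3 : 0 ≤ (volume (F j).dom).toReal := ENNReal.toReal_nonneg
      have h4 := mul_le_mul_of_nonneg_left h2 h3
      nlinarith [h4]

end Pool.Agent.Helper44.GJ
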