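import Pool.Agent.Helper51.GJ.IN0
import Pool.Agent.Helper67.LB.PLn

/-! Module MAR: the marginals of the measure `exp (-Ph)` are even and log-concave. -/

set_option autoImplicit false

open Finset MeasureTheory Filter Topology Matrix
open scoped ENNReal ContDiff

namespace Pool.Agent.Helper44.GJ

open Pool.Agent.Helper44.GF Pool.Agent.Helper44.GN Pool.Agent.Helper44.GH

namespace MARx

/-- substitution `t = a v + r` -/
theorem lsub {a : ℝ} (ha : a ≠ 0) (r : ℝ) (H : ℝ → ℝ≥0∞) (hH : Measurable H) :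
    ∫⁻ v, H (a * v + r) = ENNReal.ofReal |a|⁻¹ * ∫⁻ t, H t := by
  have h1 : ∫⁻ t, H t = ∫⁻ t, H (t + r) := (lintegral_add_right_eq_self H r).symm
  have h2 : ENNReal.ofReal |a| * ∫⁻ v, H (a * v + r) = ∫⁻ t, H (t + r) := by
    have h3 : Measurable fun t : ℝ => H (t + r) := hH.comp (measurable_id.add_const r)
    have h4 := Real.smul_map_volume_mul_left ha
    calc ENNReal.ofReal |a| * ∫⁻ v, H (a * v + r)
        = ENNReal.ofReal |a| * ∫⁻ t, H (t + r) ∂(Measure.map (a * ·) volume) := by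
          rw [lintegral_map h3 (measurable_const_mul a)]
      _ = ∫⁻ t, H (t + r) ∂(ENNReal.ofReal |a| • Measure.map (a * ·) volume) := by
          rw [lintegral_smul_measure, smul_eq_mul]
      _ = _ := by rw [h4]
  rw [h1, ← h2, ← mul_assoc, ← ENNReal.ofReal_mul (inv_nonneg.2 (abs_nonneg a)),
    inv_mul_cancel₀ (abs_ne_zero.2 ha), ENNReal.ofReal_one, one_mul]

/-- even functions -/
theorem leven (G : ℝ → ℝ≥0∞) (he : ∀ t, G (-t) = G t) :
    ∫⁻ t, G t = 2 * ∫⁻ t in Set.Ioi (0 : ℝ), G t := by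
  have h1 := lintegral_add_compl (μ := volume) G (measurableSet_Ioi (a := (0 : ℝ)))
  rw [Set.compl_Ioi] at h1
  have h2 : ∫⁻ t in Set.Iic (0 : ℝ), G t = ∫⁻ t in Set.Ioi (0 : ℝ), G t := by
    rw [← setLIntegral_congr (Iio_ae_eq_Iic (a := (0 : ℝ)) (μ := volume))]
    rw [← lintegral_indicator measurableSet_Iio, ← lintegral_indicator measurableSet_Ioi,
      ← lintegral_neg_eq_self]
    apply lintegral_congr
    intro t
    by_cases ht : 0 < t
    · rw [Set.indicator_of_mem (show t ∈ Set.Ioi (0 : ℝ) from ht),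
        Set.indicator_of_mem (show -t ∈ Set.Iio (0 : ℝ) from neg_lt_zero.2 ht), he]
    · rw [Set.indicator_of_notMem (show t ∉ Set.Ioi (0 : ℝ) from ht),
        Set.indicator_of_notMem (show -t ∉ Set.Iio (0 : ℝ) from fun h => ht (neg_lt_zero.1 h))]
  rw [← h1, h2, two_mul]

variable {n k : ℕ}

/-- the rest of the row -/
noncomputable def rr (V : Matrix (Fin n) (Fin (k + 1)) ℝ) (j : Fin n) (e : Fin (k + 1)) (x : Fin k → ℝ) : ℝ :=
  ∑ i, V j (e.succAbove i) * x i

theorem mulVec_insert (V : Matrix (Fin n) (Fin (k + 1)) ℝ) (j : Fin n) (e : Fin (k + 1)) (v : ℝ) (x : Fin k → ℝ) :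
    V.mulVec (e.insertNth v x : Fin (k + 1) → ℝ) j = V j e * v + rr V j e x := by
  show ∑ i, V j i * (e.insertNth v x : Fin (k + 1) → ℝ) i = _
  rw [Fin.sum_univ_succAbove _ e, Fin.insertNth_apply_same]
  congr 1
  exact Finset.sum_congr rfl fun i _ => by rw [Fin.insertNth_apply_succAbove]

/-- the point with `(V x)_j = t` over `x'` -/
noncomputable def yy (V : Matrix (Fin n) (Fin (k + 1)) ℝ) (j : Fin n) (e : Fin (k + 1)) (t : ℝ) (x : Fin k → ℝ) :
    Fin (k + 1) → ℝ := e.insertNth ((t - rr V j e x) / V j e) x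

theorem yy_same (V : Matrix (Fin n) (Fin (k + 1)) ℝ) (j : Fin n) (e : Fin (k + 1)) (t : ℝ) (x : Fin k → ℝ) :
    yy V j e t x e = (t - rr V j e x) / V j e := by
  unfold yy
  rw [Fin.insertNth_apply_same]

theorem yy_succ (V : Matrix (Fin n) (Fin (k + 1)) ℝ) (j : Fin n) (e : Fin (k + 1)) (t : ℝ) (x : Fin k → ℝ)
    (i : Fin k) : yy V j e t x (e.succAbove i) = x i := by
  unfold yy
  rw [Fin.insertNth_apply_succAbove]

theorem rr_comb (V : Matrix (Fin n) (Fin (k + 1)) ℝ) (j : Fin n) (e : Fin (k + 1)) (a b : ℝ) (x y : Fin k → ℝ) :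
    rr V j e (a • x + b • y) = a * rr V j e x + b * rr V j e y := by
  unfold rr
  rw [Finset.mul_sum, Finset.mul_sum, ← Finset.sum_add_distrib]
  refine Finset.sum_congr rfl fun i _ => ?_
  show V j (e.succAbove i) * (a * x i + b * y i) = _
  ring

theorem yy_comb (V : Matrix (Fin n) (Fin (k + 1)) ℝ) (j : Fin n) (e : Fin (k + 1)) (a b t u : ℝ) (x y : Fin k → ℝ) :
    a • yy V j e t x + b • yy V j e u y = yy V j e (a * t + b * u) (a • x + b • y) := by
  funext l
  rcases Fin.eq_self_or_eq_succAbove e l with rfl | ⟨i, rfl⟩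
  · rw [yy_same, rr_comb]
    show a * yy V j l t x l + b * yy V j l u y l = _
    rw [yy_same, yy_same]
    ring
  · rw [yy_succ]
    show a * yy V j e t x (e.succAbove i) + b * yy V j e u y (e.succAbove i) = _
    rw [yy_succ, yy_succ]
    rfl

theorem yy_neg (V : Matrix (Fin n) (Fin (k + 1)) ℝ) (j : Fin n) (e : Fin (k + 1)) (t : ℝ) (x : Fin k → ℝ) :
    yy V j e (-t) (-x) = -yy V j e t x := by
  have h := yy_comb V j e (-1) 0 t 0 x 0
  have e1 : (-1 : ℝ) * t + 0 * 0 = -t := by ring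
  have e2 : (-1 : ℝ) • x + (0 : ℝ) • (0 : Fin k → ℝ) = -x := by
    rw [zero_smul, add_zero, neg_smul, one_smul]
  have e3 : (-1 : ℝ) • yy V j e t x + (0 : ℝ) • yy V j e 0 0 = -yy V j e t x := by
    rw [zero_smul, add_zero, neg_smul, one_smul]
  rw [e1, e2, e3] at h
  exact h.symm

theorem yy_meas (V : Matrix (Fin n) (Fin (k + 1)) ℝ) (j : Fin n) (e : Fin (k + 1)) :
    Measurable fun z : ℝ × (Fin k → ℝ) => yy V j e z.1 z.2 := by
  have h1 : Measurable fun x : Fin k → ℝ => rr V j e x := by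
    unfold rr
    exact Finset.measurable_sum _ fun i _ => (measurable_pi_apply i).const_mul _
  have h2 : Measurable fun z : ℝ × (Fin k → ℝ) => (((z.1 - rr V j e z.2) / V j e, z.2) : ℝ × (Fin k → ℝ)) :=
    ((measurable_fst.sub (h1.comp measurable_snd)).div_const _).prodMk measurable_snd
  exact (Pool.Agent.Helper67.LB.measurable_insertNth e).comp h2

theorem norm_yy (V : Matrix (Fin n) (Fin (k + 1)) ℝ) (j : Fin n) (e : Fin (k + 1)) (t : ℝ) (x : Fin k → ℝ) :
    ‖x‖ ≤ ‖yy V j e t x‖ := by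
  rw [pi_norm_le_iff_of_nonneg (norm_nonneg _)]
  intro i
  rw [← yy_succ V j e t x i]
  exact norm_le_pi_norm _ _

/-- the unnormalised marginal -/
noncomputable def f0 (p : ℝ) (V : Matrix (Fin n) (Fin (k + 1)) ℝ) (j : Fin n) (e : Fin (k + 1)) (t : ℝ) : ℝ≥0∞ :=
  ENNReal.ofReal |V j e|⁻¹ * ∫⁻ x : Fin k → ℝ, ENNReal.ofReal (ee p V (yy V j e t x))

section

variable {p : ℝ} (V : Matrix (Fin n) (Fin (k + 1)) ℝ) (j : Fin n) (e : Fin (k + 1))

theorem ee_meas {m : ℕ} (hp : 1 ≤ p) (V : Matrix (Fin n) (Fin m) ℝ) :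
    Measurable fun x : Fin m → ℝ => ENNReal.ofReal (ee p V x) :=
  ENNReal.measurable_ofReal.comp (in0_cont hp V).measurable

theorem ey_meas (hp : 1 ≤ p) : Measurable fun z : ℝ × (Fin k → ℝ) => ENNReal.ofReal (ee p V (yy V j e z.1 z.2)) :=
  (ee_meas hp V).comp (yy_meas V j e)

theorem ey_meas1 (hp : 1 ≤ p) (t : ℝ) : Measurable fun x' : Fin k → ℝ => ENNReal.ofReal (ee p V (yy V j e t x')) := by
  have h1 : Measurable fun x' : Fin k → ℝ => yy V j e t x' :=
    (yy_meas V j e).comp (measurable_prodMk_left (x := t))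
  exact (ee_meas hp V).comp h1

theorem ey_meas2 (hp : 1 ≤ p) (x' : Fin k → ℝ) : Measurable fun t : ℝ => ENNReal.ofReal (ee p V (yy V j e t x')) := by
  have h1 : Measurable fun t : ℝ => yy V j e t x' :=
    (yy_meas V j e).comp (measurable_prodMk_right (y := x'))
  exact (ee_meas hp V).comp h1

theorem f0_meas (hp : 1 ≤ p) : Measurable (f0 p V j e) := by
  unfold f0
  exact (Measurable.lintegral_prod_right' (ey_meas V j e hp)).const_mul _

theorem f0_even (t : ℝ) : f0 p V j e (-t) = f0 p V j e t := by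
  unfold f0
  congr 1
  rw [← lintegral_neg_eq_self]
  apply lintegral_congr
  intro x
  rw [yy_neg]
  congr 1
  unfold ee Ph
  simp only [Matrix.mulVec_neg, Pi.neg_apply, abs_neg]

/-- the marginal -/
theorem f0_eq (hp : 1 ≤ p) (he : V j e ≠ 0) (φ : ℝ → ℝ≥0∞) (hφ : Measurable φ) :
    ∫⁻ x : Fin (k + 1) → ℝ, φ (V.mulVec x j) * ENNReal.ofReal (ee p V x) = ∫⁻ t, φ t * f0 p V j e t := by
  have hV : Measurable fun x : Fin (k + 1) → ℝ => V.mulVec x j := (GB2.cont_row V j).measurable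
  have hF : Measurable fun x : Fin (k + 1) → ℝ => φ (V.mulVec x j) * ENNReal.ofReal (ee p V x) :=
    (hφ.comp hV).mul (ee_meas hp V)
  rw [Pool.Agent.Helper67.LB.lintegral_cons hF e]
  have hF2 : Measurable fun z : ℝ × (Fin k → ℝ) => φ (V.mulVec (e.insertNth z.1 z.2 : Fin (k + 1) → ℝ) j) *
      ENNReal.ofReal (ee p V (e.insertNth z.1 z.2 : Fin (k + 1) → ℝ)) :=
    hF.comp (Pool.Agent.Helper67.LB.measurable_insertNth e)
  rw [lintegral_lintegral_swap (f := fun v x' => φ (V.mulVec (e.insertNth v x' : Fin (k + 1) → ℝ) j) *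
      ENNReal.ofReal (ee p V (e.insertNth v x' : Fin (k + 1) → ℝ))) hF2.aemeasurable]
  have hG2 : Measurable fun z : ℝ × (Fin k → ℝ) => φ z.1 * ENNReal.ofReal (ee p V (yy V j e z.1 z.2)) :=
    (hφ.comp measurable_fst).mul (ey_meas V j e hp)
  have h1 : ∀ x' : Fin k → ℝ, ∫⁻ v : ℝ, φ (V.mulVec (e.insertNth v x' : Fin (k + 1) → ℝ) j) *
      ENNReal.ofReal (ee p V (e.insertNth v x' : Fin (k + 1) → ℝ)) =
      ENNReal.ofReal |V j e|⁻¹ * ∫⁻ t, φ t * ENNReal.ofReal (ee p V (yy V j e t x')) := by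
    intro x'
    have h2 : Measurable fun t : ℝ => φ t * ENNReal.ofReal (ee p V (yy V j e t x')) :=
      hφ.mul (ey_meas2 V j e hp x')
    rw [← lsub he (rr V j e x') _ h2]
    apply lintegral_congr
    intro v
    rw [mulVec_insert]
    congr 3
    unfold yy
    rw [add_sub_cancel_right, mul_div_cancel_left₀ _ he]
  simp_rw [h1]
  rw [lintegral_const_mul _ (Measurable.lintegral_prod_left' hG2)]
  rw [lintegral_lintegral_swap (f := fun (x' : Fin k → ℝ) (t : ℝ) => φ t * ENNReal.ofReal (ee p V (yy V j e t x')))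
    (hG2.comp measurable_swap).aemeasurable]
  rw [← lintegral_const_mul _ (Measurable.lintegral_prod_right' hG2)]
  apply lintegral_congr
  intro t
  unfold f0
  show ENNReal.ofReal |V j e|⁻¹ * ∫⁻ y : Fin k → ℝ, φ t * ENNReal.ofReal (ee p V (yy V j e t y)) = _
  rw [lintegral_const_mul _ (ey_meas1 V j e hp t)]
  exact mul_left_comm _ _ _

/-- convexity of the potential -/
theorem ph_conv {m : ℕ} (hp : 1 ≤ p) (V : Matrix (Fin n) (Fin m) ℝ) {a b : ℝ} (ha : 0 ≤ a) (hb : 0 ≤ b)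
    (hab : a + b = 1) (x y : Fin m → ℝ) : Ph p V (a • x + b • y) ≤ a * Ph p V x + b * Ph p V y := by
  unfold Ph
  rw [Finset.mul_sum, Finset.mul_sum, ← Finset.sum_add_distrib]
  refine Finset.sum_le_sum fun i _ => ?_
  rw [Matrix.mulVec_add, Matrix.mulVec_smul, Matrix.mulVec_smul]
  show |a * V.mulVec x i + b * V.mulVec y i| ^ p ≤ a * |V.mulVec x i| ^ p + b * |V.mulVec y i| ^ p
  have h1 : |a * V.mulVec x i + b * V.mulVec y i| ≤ a * |V.mulVec x i| + b * |V.mulVec y i| := by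
    refine (abs_add_le _ _).trans (le_of_eq ?_)
    rw [abs_mul, abs_mul, abs_of_nonneg ha, abs_of_nonneg hb]
  refine (Real.rpow_le_rpow (abs_nonneg _) h1 (by linarith)).trans ?_
  exact (convexOn_rpow hp).2 (abs_nonneg (V.mulVec x i)) (abs_nonneg (V.mulVec y i)) ha hb hab

theorem ee_conv {m : ℕ} (hp : 1 ≤ p) (V : Matrix (Fin n) (Fin m) ℝ) {a b : ℝ} (ha : 0 < a) (hb : 0 < b)
    (hab : a + b = 1) (x y : Fin m → ℝ) : ENNReal.ofReal (ee p V x) ^ a * ENNReal.ofReal (ee p V y) ^ b ≤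
      ENNReal.ofReal (ee p V (a • x + b • y)) := by
  have hx : 0 < ee p V x := Real.exp_pos _
  have hy : 0 < ee p V y := Real.exp_pos _
  rw [ENNReal.ofReal_rpow_of_pos hx, ENNReal.ofReal_rpow_of_pos hy,
    ← ENNReal.ofReal_mul (Real.rpow_nonneg hx.le _)]
  apply ENNReal.ofReal_le_ofReal
  unfold ee
  rw [← Real.exp_mul, ← Real.exp_mul, ← Real.exp_add]
  apply Real.exp_le_exp.2
  have := ph_conv hp V ha.le hb.le hab x y
  linarith

theorem f0_lc (hp : 1 ≤ p) {a b : ℝ} (ha : 0 < a) (hb : 0 < b) (hab : a + b = 1) (t u : ℝ) :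
    f0 p V j e t ^ a * f0 p V j e u ^ b ≤ f0 p V j e (a * t + b * u) := by
  have hm : ∀ t : ℝ, Measurable fun x' : Fin k → ℝ => ENNReal.ofReal (ee p V (yy V j e t x')) :=
    ey_meas1 V j e hp
  have h1 := Pool.Agent.Helper67.LB.pl_pi k (hm t) (hm u) (hm (a * t + b * u)) ha hb hab (fun x y => by
    rw [← yy_comb]
    exact ee_conv hp V ha hb hab _ _)
  unfold f0
  rw [ENNReal.mul_rpow_of_nonneg _ _ ha.le, ENNReal.mul_rpow_of_nonneg _ _ hb.le]
  set c := ENNReal.ofReal |V j e|⁻¹ with hc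
  have h2 : c ^ a * c ^ b ≤ c := by
    rw [← ENNReal.rpow_add_of_nonneg _ _ ha.le hb.le, hab, ENNReal.rpow_one]
  rw [mul_mul_mul_comm]
  exact mul_le_mul' h2 h1

theorem f0_le (hp : 1 ≤ p) (t : ℝ) : f0 p V j e t ≤ f0 p V j e 0 := by
  have h1 := f0_lc V j e hp (a := 1 / 2) (b := 1 / 2) (by norm_num) (by norm_num) (by norm_num) t (-t)
  rw [f0_even] at h1
  have e1 : (1 / 2 : ℝ) * t + 1 / 2 * (-t) = 0 := by ring
  rw [e1, ← ENNReal.rpow_add_of_nonneg _ _ (by norm_num) (by norm_num)] at h1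
  norm_num at h1
  exact h1

theorem f0_zero (hGRW : ST_GRW) (hp : 1 ≤ p) (hV : Function.Injective V.mulVec) :
    f0 p V j e 0 < ⊤ := by
  obtain ⟨c, hc, hd⟩ := in0_dec hGRW hp V hV
  unfold f0
  apply ENNReal.mul_lt_top ENNReal.ofReal_lt_top
  obtain ⟨N, hN⟩ : ∃ N : ℕ, N = k + 1 := ⟨_, rfl⟩
  obtain ⟨K, hK⟩ : ∃ K : ℝ, K = Real.exp 1 * (N.factorial * Real.exp c / c ^ N) := ⟨_, rfl⟩
  have hj : Integrable (fun x : Fin k → ℝ => K * (1 + ‖x‖) ^ (-((k : ℝ) + 1))) := by
    apply Integrable.const_mul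
    apply integrable_one_add_norm
    rw [Module.finrank_fintype_fun_eq_card, Fintype.card_fin]
    linarith
  have h2 : ∀ x : Fin k → ℝ, ee p V (yy V j e 0 x) ≤ K * (1 + ‖x‖) ^ (-((k : ℝ) + 1)) := by
    intro x
    have h0 := norm_nonneg x
    have h1 := in0_exp hc N h0
    have hq : (0 : ℝ) < (1 + ‖x‖) ^ N := by positivity
    have e1 : (1 + ‖x‖) ^ (-((k : ℝ) + 1)) = ((1 + ‖x‖) ^ N)⁻¹ := by
      rw [Real.rpow_neg (by positivity)]
      congr 1
      rw [← Real.rpow_natCast, hN]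
      push_cast
      rfl
    have h3 : Real.exp (-(c * ‖x‖)) ≤ (N.factorial * Real.exp c / c ^ N) * ((1 + ‖x‖) ^ N)⁻¹ := by
      rw [← div_eq_mul_inv, le_div_iff₀ hq, mul_comm]
      exact h1
    have h4 : Real.exp (-(c * ‖yy V j e 0 x‖)) ≤ Real.exp (-(c * ‖x‖)) := by
      apply Real.exp_le_exp.2
      have := mul_le_mul_of_nonneg_left (norm_yy V j e 0 x) hc.le
      linarith
    have h5 := hd (yy V j e 0 x)
    have h6 := mul_le_mul_of_nonneg_left (h4.trans h3) (Real.exp_pos 1).le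
    rw [e1, hK, mul_assoc]
    exact h5.trans h6
  refine lt_of_le_of_lt (lintegral_mono fun x => ENNReal.ofReal_le_ofReal (h2 x)) ?_
  have h5 := hj.2
  refine lt_of_le_of_lt (lintegral_mono fun x => ?_) h5
  exact Real.ofReal_le_enorm _

theorem f0_lt (hGRW : ST_GRW) (hp : 1 ≤ p) (hV : Function.Injective V.mulVec) (t : ℝ) :
    f0 p V j e t < ⊤ := (f0_le V j e hp t).trans_lt (f0_zero V j e hGRW hp hV)

theorem f0_pos (hp : 1 ≤ p) (he : V j e ≠ 0) (t : ℝ) : 0 < f0 p V j e t := by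
  unfold f0
  apply ENNReal.mul_pos
  · rw [ENNReal.ofReal_ne_zero_iff]
    exact inv_pos.2 (abs_pos.2 he)
  · rw [← pos_iff_ne_zero, lintegral_pos_iff_support (ey_meas1 V j e hp t)]
    have h2 : (Function.support fun x' : Fin k → ℝ => ENNReal.ofReal (ee p V (yy V j e t x'))) = Set.univ := by
      rw [Set.eq_univ_iff_forall]
      intro x
      exact ENNReal.ofReal_ne_zero_iff.2 (Real.exp_pos _)
    rw [h2]
    exact isOpen_univ.measure_pos volume Set.univ_nonempty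

end

end MARx

open MARx

theorem st_MAR (hGRW : ST_GRW) : ST_MAR := by
  intro n m p V hp2 hp3 hV j hj
  have hp : 1 ≤ p := by linarith
  obtain ⟨e, he⟩ := Function.ne_iff.1 hj
  have he' : V j e ≠ 0 := he
  obtain ⟨k, rfl⟩ : ∃ k, m = k + 1 := ⟨m - 1, by have := e.pos; omega⟩
  have hm := f0_meas (p := p) V j e hp
  have hlt := f0_lt (p := p) V j e hGRW hp hV
  have hpos := f0_pos (p := p) V j e hp he'
  have h2lt : ∀ t, 2 * f0 p V j e t < ⊤ := fun t => ENNReal.mul_lt_top (by norm_num) (hlt t)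
  have hof : ∀ t, ENNReal.ofReal ((2 * f0 p V j e t).toReal) = 2 * f0 p V j e t := fun t =>
    ENNReal.ofReal_toReal (h2lt t).ne
  have key : ∀ φ : ℝ → ℝ≥0∞, Measurable φ →
      ∫⁻ x : Fin (k + 1) → ℝ, φ |V.mulVec x j| * ENNReal.ofReal (ee p V x)
        = ∫⁻ t in Set.Ioi (0 : ℝ), φ t * ENNReal.ofReal ((2 * f0 p V j e t).toReal) := by
    intro φ hφ
    have hφ2 : Measurable fun t : ℝ => φ |t| := hφ.comp measurable_norm
    rw [f0_eq V j e hp he' (fun t => φ |t|) hφ2]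
    rw [leven (fun t => φ |t| * f0 p V j e t) (fun t => by rw [abs_neg, f0_even])]
    have hφm : Measurable fun t : ℝ => φ |t| * f0 p V j e t := hφ2.mul hm
    rw [← lintegral_const_mul _ hφm]
    apply setLIntegral_congr_fun measurableSet_Ioi
    intro t ht
    show 2 * (φ |t| * f0 p V j e t) = φ t * ENNReal.ofReal ((2 * f0 p V j e t).toReal)
    rw [hof, abs_of_pos (show 0 < t from ht)]
    exact mul_left_comm _ _ _
  have hmass : ∫⁻ t in Set.Ioi (0 : ℝ), ENNReal.ofReal ((2 * f0 p V j e t).toReal) = ENNReal.ofReal (Mp p V) := by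
    have h1 := key (fun _ => 1) measurable_const
    simp only [one_mul] at h1
    rw [← h1]
    unfold Mp
    rw [ofReal_integral_eq_lintegral_ofReal]
    · have h2 := in0_int hGRW hp V hV (fun _ => 1) 1 0 aestronglyMeasurable_const (fun x => by simp)
      refine h2.congr (Eventually.of_forall fun x => ?_)
      show 1 * ee p V x = ee p V x
      rw [one_mul]
    · exact Eventually.of_forall fun x => (Real.exp_pos _).le
  have hM : 0 < Mp p V := (st_IN0 hGRW n (k + 1) p V hp hV).1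
  have hfm : Measurable fun t => (2 * f0 p V j e t).toReal := (hm.const_mul 2).ennreal_toReal
  have hint : IntegrableOn (fun t => (2 * f0 p V j e t).toReal) (Set.Ioi 0) := by
    refine ⟨hfm.aestronglyMeasurable, ?_⟩
    rw [hasFiniteIntegral_iff_ofReal (Eventually.of_forall fun t => ENNReal.toReal_nonneg), hmass]
    exact ENNReal.ofReal_lt_top
  refine ⟨fun t => (2 * f0 p V j e t).toReal, ⟨hfm, fun t _ => ?_, ⟨(2 * f0 p V j e 0).toReal, fun t _ => ?_⟩,
    fun t u a b ht hu ha hb hab => ?_, hint, ?_, hM⟩, key⟩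
  · exact ENNReal.toReal_pos (mul_ne_zero (by norm_num) (hpos t).ne') (h2lt t).ne
  · apply ENNReal.toReal_mono (h2lt 0).ne
    exact mul_le_mul_right (f0_le V j e hp t) 2
  · rw [ENNReal.toReal_rpow, ENNReal.toReal_rpow, ← ENNReal.toReal_mul]
    apply ENNReal.toReal_mono (h2lt _).ne
    rw [ENNReal.mul_rpow_of_nonneg _ _ ha.le, ENNReal.mul_rpow_of_nonneg _ _ hb.le]
    have h2 : (2 : ℝ≥0∞) ^ a * 2 ^ b = 2 := by
      rw [← ENNReal.rpow_add_of_nonneg _ _ ha.le hb.le, hab, ENNReal.rpow_one]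
    rw [mul_mul_mul_comm, h2]
    exact mul_le_mul_right (f0_lc V j e hp ha hb hab t u) 2
  · rw [integral_eq_lintegral_of_nonneg_ae (Eventually.of_forall fun t => ENNReal.toReal_nonneg)
      hfm.aestronglyMeasurable, hmass, ENNReal.toReal_ofReal hM.le]

end Pool.Agent.Helper44.GJ
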