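import Pool.Agent.Helper44.GJ.Stmts

/-! Module SE4: the term with the fluctuations. -/

open Finset MeasureTheory Filter Topology Matrix
open scoped ENNReal ContDiff

namespace Pool.Agent.Helper44.GJ

open Pool.Agent.Helper44.GF Pool.Agent.Helper44.GN Pool.Agent.Helper44.GH

theorem se4_lin {n m : ℕ} (V : Matrix (Fin n) (Fin m) ℝ) (j : Fin n) :
    ∃ C : ℝ, 0 ≤ C ∧ ∀ x : Fin m → ℝ, |V.mulVec x j| ≤ C * ‖x‖ := by
  refine ⟨∑ a, |V j a|, Finset.sum_nonneg fun a _ => abs_nonneg _, fun x => ?_⟩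
  show |∑ a, V j a * x a| ≤ _
  refine (Finset.abs_sum_le_sum_abs _ _).trans ?_
  rw [Finset.sum_mul]
  refine Finset.sum_le_sum fun a _ => ?_
  rw [abs_mul]
  exact mul_le_mul_of_nonneg_left (by simpa using norm_le_pi_norm x a) (abs_nonneg _)

theorem se4_dot {m : ℕ} (v : Fin m → ℝ) :
    ∃ C : ℝ, 0 ≤ C ∧ ∀ x : Fin m → ℝ, |v ⬝ᵥ x| ≤ C * ‖x‖ := by
  refine ⟨∑ a, |v a|, Finset.sum_nonneg fun a _ => abs_nonneg _, fun x => ?_⟩
  show |∑ a, v a * x a| ≤ _
  refine (Finset.abs_sum_le_sum_abs _ _).trans ?_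
  rw [Finset.sum_mul]
  refine Finset.sum_le_sum fun a _ => ?_
  rw [abs_mul]
  exact mul_le_mul_of_nonneg_left (by simpa using norm_le_pi_norm x a) (abs_nonneg _)

theorem se4_ct {n m : ℕ} (V : Matrix (Fin n) (Fin m) ℝ) (j : Fin n) :
    Continuous fun x : Fin m → ℝ => V.mulVec x j := by
  have : (fun x : Fin m → ℝ => V.mulVec x j) = fun x => ∑ a, V j a * x a := rfl
  rw [this]
  fun_prop

theorem se4_ctd {m : ℕ} (v : Fin m → ℝ) : Continuous fun x : Fin m → ℝ => v ⬝ᵥ x := by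
  have : (fun x : Fin m → ℝ => v ⬝ᵥ x) = fun x => ∑ a, v a * x a := rfl
  rw [this]
  fun_prop

/-- The square of the fluctuation is integrable. -/
theorem se4_psi (hG : ST_GD) (h0 : ST_IN0) (h1 : ST_IN1) {n m : ℕ} {p : ℝ}
    {V : Matrix (Fin n) (Fin m) ℝ} {c : Fin n → ℝ} (hp1 : 2 < p) (hp2 : p ≤ 11 / 5)
    (hV : Function.Injective V.mulVec) (hc : ∀ j, 0 < c j) {j : Fin n} (hj : V j ≠ 0) :
    Integrable (fun x : Fin m → ℝ =>
      (Yj p V c j x + (Yj p V c j x)⁻¹ - 2) ^ 2 * ee p V x) := by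
  obtain ⟨-, -, -, hg2c, hg2n, -, -, hg2b, -, -⟩ := hG p hp1 (by linarith)
  obtain ⟨-, heec, hint⟩ := h0 n m p V (by linarith) hV
  obtain ⟨L, hL0, hL⟩ := se4_lin V j
  have hYc : Continuous (Yj p V c j) := by
    unfold Yj
    exact (hg2c.comp (se4_ct V j)).div_const _
  have hYn : ∀ x, 0 ≤ Yj p V c j x := fun x => div_nonneg (hg2n _) (hc j).le
  have hee : ∀ x, 0 ≤ ee p V x := fun x => (Real.exp_pos _).le
  have hYb : ∀ x, Yj p V c j x ≤ 6 * (1 + L) / c j * (1 + ‖x‖) := by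
    intro x
    unfold Yj
    rw [div_mul_eq_mul_div]
    refine div_le_div_of_nonneg_right ?_ (hc j).le
    refine (hg2b _).trans ?_
    have := hL x
    have h2 := norm_nonneg x
    nlinarith
  have hA : Integrable (fun x : Fin m → ℝ => Yj p V c j x ^ 2 * ee p V x) := by
    refine hint _ ((6 * (1 + L) / c j) ^ 2) 2 (hYc.pow 2).aestronglyMeasurable fun x => ?_
    rw [abs_of_nonneg (sq_nonneg _), ← mul_pow]
    exact pow_le_pow_left₀ (hYn x) (hYb x) 2
  have hB : Integrable (fun x : Fin m → ℝ => (Yj p V c j x)⁻¹ ^ 2 * ee p V x) := by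
    have h := h1 n m p V hp1 (by linarith) hV j j hj hj (p - 2) (p - 2) (by linarith)
      (by linarith) (by linarith) (fun _ => (c j / (p * (p - 1))) ^ 2)
      ((c j / (p * (p - 1))) ^ 2) 0 aestronglyMeasurable_const (fun x => by
        rw [abs_of_nonneg (sq_nonneg _)]; simp)
    refine h.congr (Filter.Eventually.of_forall fun x => ?_)
    show _ = (Yj p V c j x)⁻¹ ^ 2 * ee p V x
    have h2 : (Yj p V c j x)⁻¹ = c j / (p * (p - 1)) * |V.mulVec x j| ^ (-(p - 2)) := by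
      unfold Yj g2
      rw [Real.rpow_neg (abs_nonneg _)]
      rw [inv_div, div_mul_eq_div_div, div_eq_mul_inv (c j / (p * (p - 1)))]
    rw [h2]
    ring
  have hC : Integrable (fun x : Fin m → ℝ => (4 : ℝ) * ee p V x) :=
    hint _ 4 0 aestronglyMeasurable_const fun x => by simp
  have hS := ((hA.add hB).add hC).const_mul 3
  refine hS.mono' ?_ (Filter.Eventually.of_forall fun x => ?_)
  · have hYm : Measurable (Yj p V c j) := hYc.measurable
    exact ((((hYm.add hYm.inv).sub_const 2).pow_const 2).mul heec.measurable).aestronglyMeasurable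
  · have hn := mul_nonneg (sq_nonneg (Yj p V c j x + (Yj p V c j x)⁻¹ - 2)) (hee x)
    rw [Real.norm_eq_abs, abs_of_nonneg hn]
    show _ ≤ 3 * (Yj p V c j x ^ 2 * ee p V x + (Yj p V c j x)⁻¹ ^ 2 * ee p V x
      + 4 * ee p V x)
    have h2 : (Yj p V c j x + (Yj p V c j x)⁻¹ - 2) ^ 2
        ≤ 3 * (Yj p V c j x ^ 2 + (Yj p V c j x)⁻¹ ^ 2 + 4) := by
      nlinarith [sq_nonneg (Yj p V c j x - (Yj p V c j x)⁻¹),
        sq_nonneg (Yj p V c j x + 2), sq_nonneg ((Yj p V c j x)⁻¹ + 2)]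
    have h3 := mul_le_mul_of_nonneg_right h2 (hee x)
    linarith

theorem st_SE4 (hG : ST_GD) (h0 : ST_IN0) (h1 : ST_IN1) (h3 : ST_SE3) : ST_SE4 := by
  intro n m p V c hp1 hp2 hV hR hT j hj v
  obtain ⟨hM, heec, hint⟩ := h0 n m p V (by linarith) hV
  have hP := se4_psi hG h0 h1 hp1 hp2 hV hR.c0 hj
  have hr6 := hR.r6 j hj
  have hs4 := h3 n m p V c hp1 hp2 hV hR hT v
  have hee : ∀ x, 0 ≤ ee p V x := fun x => (Real.exp_pos _).le
  obtain ⟨-, -, -, -, hg2n, -, -, -, -, -⟩ := hG p hp1 (by linarith)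
  have hYn : ∀ x, 0 ≤ Yj p V c j x := fun x => div_nonneg (hg2n _) (hR.c0 j).le
  by_cases hv : v = 0
  · subst hv
    unfold IE
    simp
  have hvv : 0 < v ⬝ᵥ v := by
    have h1 : 0 ≤ v ⬝ᵥ v := Finset.sum_nonneg fun a _ => mul_self_nonneg _
    rcases h1.lt_or_eq with h | h
    · exact h
    · exact absurd (dotProduct_self_eq_zero.1 h.symm) hv
  set q : ℝ := v ⬝ᵥ v with hq
  obtain ⟨L, hL0, hL⟩ := se4_dot v
  have h4i : Integrable (fun x : Fin m → ℝ => (v ⬝ᵥ x) ^ 4 * ee p V x) := by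
    refine hint _ (L ^ 4) 4 ((se4_ctd v).pow 4).aestronglyMeasurable fun x => ?_
    rw [abs_pow, ← mul_pow]
    refine pow_le_pow_left₀ (abs_nonneg _) ((hL x).trans ?_) 4
    exact mul_le_mul_of_nonneg_left (by linarith [norm_nonneg x]) hL0
  have hg : Integrable (fun x : Fin m → ℝ =>
      11 * q / 2 * ((Yj p V c j x + (Yj p V c j x)⁻¹ - 2) ^ 2 * ee p V x)
        + 1 / (22 * q) * ((v ⬝ᵥ x) ^ 4 * ee p V x)) :=
    (hP.const_mul _).add (h4i.const_mul _)
  have hpsi : ∀ x, Yj p V c j x ≠ 0 → 0 ≤ Yj p V c j x + (Yj p V c j x)⁻¹ - 2 := by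
    intro x hx
    have hy : 0 < Yj p V c j x := lt_of_le_of_ne (hYn x) (Ne.symm hx)
    have : Yj p V c j x + (Yj p V c j x)⁻¹ - 2
        = (Yj p V c j x - 1) ^ 2 / Yj p V c j x := by
      field_simp
      ring
    rw [this]
    positivity
  have hle : IE p V (fun x => (Yj p V c j x + (Yj p V c j x)⁻¹ - 2) * (v ⬝ᵥ x) ^ 2)
      ≤ ∫ x : Fin m → ℝ, (11 * q / 2 * ((Yj p V c j x + (Yj p V c j x)⁻¹ - 2) ^ 2 * ee p V x)
        + 1 / (22 * q) * ((v ⬝ᵥ x) ^ 4 * ee p V x)) := by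
    unfold IE
    have hpt : ∀ x : Fin m → ℝ,
        (Yj p V c j x + (Yj p V c j x)⁻¹ - 2) * (v ⬝ᵥ x) ^ 2 * ee p V x
        ≤ 11 * q / 2 * ((Yj p V c j x + (Yj p V c j x)⁻¹ - 2) ^ 2 * ee p V x)
        + 1 / (22 * q) * ((v ⬝ᵥ x) ^ 4 * ee p V x) := by
      intro x
      set a := Yj p V c j x + (Yj p V c j x)⁻¹ - 2
      set s := v ⬝ᵥ x
      have h : a * s ^ 2 ≤ 11 * q / 2 * a ^ 2 + 1 / (22 * q) * s ^ 4 := by
        have h5 : 0 ≤ (11 * q * a - s ^ 2) ^ 2 / (22 * q) := by positivity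
        have h6 : (11 * q * a - s ^ 2) ^ 2 / (22 * q)
            = 11 * q / 2 * a ^ 2 + 1 / (22 * q) * s ^ 4 - a * s ^ 2 := by
          field_simp
          ring
        linarith
      have := mul_le_mul_of_nonneg_right h (hee x)
      linarith
    by_cases hi : Integrable (fun x : Fin m → ℝ =>
        (Yj p V c j x + (Yj p V c j x)⁻¹ - 2) * (v ⬝ᵥ x) ^ 2 * ee p V x)
    · exact integral_mono hi hg hpt
    · rw [integral_undef hi]
      refine integral_nonneg fun x => ?_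
      have := hee x
      positivity
  refine hle.trans ?_
  rw [integral_add (hP.const_mul _) (h4i.const_mul _), integral_const_mul, integral_const_mul]
  unfold IE at hr6 hs4
  have e1 := mul_le_mul_of_nonneg_left hr6 (show (0 : ℝ) ≤ 11 * q / 2 by positivity)
  have e2 := mul_le_mul_of_nonneg_left hs4 (show (0 : ℝ) ≤ 1 / (22 * q) by positivity)
  have e3 : 1 / (22 * q) * ((24 / 5 + (26 / 25) ^ 2) * q ^ 2 * Mp p V)
      = (24 / 5 + (26 / 25) ^ 2) / 22 * q * Mp p V := by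
    field_simp
  rw [e3] at e2
  refine (add_le_add e1 e2).trans ?_
  have : 0 < q * Mp p V := mul_pos hvv hM
  nlinarith

end Pool.Agent.Helper44.GJ
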